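import Pool.Agent.TH421.OS.PfId

/-!
# The Pfaffian identity equivalent to the enumeration of odd-order OSASMs

Let `c a b` be the coefficient of `x ^ a * y ^ b` in `(y - x) / ((1 - x y) (1 - x - y))`. For every
`n`, the skew-symmetric array indexed by `0, …, 2n+1` with entries `c a b` for `a < b ≤ 2n` and last
column `(-1) ^ a` has the same Pfaffian as the one with last column `((-1) ^ a + 2 ^ a) / 2`.
-/

set_option autoImplicit false

namespace Pool.Agent.Results.MP_d12cfa_co.PfaffianIdentity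

/-- The power series `(y - x) / ((1 - x y) (1 - x - y))` over `ℚ`, with `x = X 0`, `y = X 1`. -/
noncomputable def C : MvPowerSeries (Fin 2) ℚ :=
  (MvPowerSeries.X 1 - MvPowerSeries.X 0) *
    ((1 - MvPowerSeries.X 0 * MvPowerSeries.X 1) *
      (1 - MvPowerSeries.X 0 - MvPowerSeries.X 1))⁻¹

/-- The coefficient of `x ^ a * y ^ b` in `C`. -/
noncomputable def c (a b : ℕ) : ℚ :=
  MvPowerSeries.coeff (Finsupp.single 0 a + Finsupp.single 1 b) C

/-- The Pfaffian of an `n` by `n` matrix, by expansion along the first row; only entries above the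
diagonal are used. -/
def pf : (n : ℕ) → Matrix (Fin n) (Fin n) ℚ → ℚ
  | 0, _ => 1
  | 1, _ => 0
  | (n + 2), A => ∑ j : Fin (n + 1), (-1) ^ (j : ℕ) * A 0 j.succ *
      pf n (A.submatrix (fun k => (j.succAbove k).succ) (fun k => (j.succAbove k).succ))

/-- The skew-symmetric array indexed by `0, …, 2n+1` whose entry in row `a` and column `b > a` is
`c a b` if `b ≤ 2n` and `v a` if `b = 2n+1`. -/
noncomputable def array (n : ℕ) (v : ℕ → ℚ) : Matrix (Fin (2 * n + 2)) (Fin (2 * n + 2)) ℚ :=
  Matrix.of fun a b =>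
    if a < b then (if (b : ℕ) = 2 * n + 1 then v a else c a b)
    else if b < a then -(if (a : ℕ) = 2 * n + 1 then v b else c b a)
    else 0

theorem pf_eq : ∀ (n : ℕ) (A : Matrix (Fin n) (Fin n) ℚ), pf n A = Pool.Agent.Helper929.pf n A
  | 0, _ => rfl
  | 1, _ => rfl
  | (n + 2), A => by
    rw [pf, Pool.Agent.Helper929.pf]
    refine Finset.sum_congr rfl fun j _ => ?_
    rw [pf_eq n]

theorem array_eq (n : ℕ) (v : ℕ → ℚ) : array n v = Pool.Agent.TH421.OS.M (2 * n + 1) v := by
  ext a b
  have ha := a.2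
  have hb := b.2
  unfold array Pool.Agent.TH421.OS.M
  rw [Matrix.of_apply, Matrix.of_apply]
  rcases lt_trichotomy a b with h | h | h
  · have h' : (a : ℕ) < b := h
    rw [if_pos h, if_pos (show (a : ℕ) < 2 * n + 1 by omega)]
    by_cases hb' : (b : ℕ) = 2 * n + 1
    · rw [if_pos hb', if_neg (by omega)]
    · rw [if_neg hb', if_pos (show (b : ℕ) < 2 * n + 1 by omega)]
      rfl
  · subst h
    rw [if_neg (lt_irrefl _), if_neg (lt_irrefl _)]
    by_cases ha' : (a : ℕ) < 2 * n + 1
    · rw [if_pos ha', if_pos ha']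
      have := Pool.Agent.TH421.OS.c_skew a a
      linarith
    · rw [if_neg ha', if_neg ha']
  · have h' : (b : ℕ) < a := h
    rw [if_neg (not_lt.2 (le_of_lt h)), if_pos h]
    by_cases ha' : (a : ℕ) = 2 * n + 1
    · rw [if_pos ha', if_neg (show ¬ (a : ℕ) < 2 * n + 1 by omega),
        if_pos (show (b : ℕ) < 2 * n + 1 by omega)]
    · rw [if_neg ha', if_pos (show (a : ℕ) < 2 * n + 1 by omega),
        if_pos (show (b : ℕ) < 2 * n + 1 by omega), Pool.Agent.TH421.OS.c_skew a b]
      rfl

/-- For every `n`, the two arrays with last columns `(-1) ^ a` and `((-1) ^ a + 2 ^ a) / 2` have the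
same Pfaffian. -/
theorem result (n : ℕ) :
    pf (2 * n + 2) (array n (fun a => (-1) ^ a)) =
      pf (2 * n + 2) (array n (fun a => ((-1) ^ a + 2 ^ a) / 2)) := by
  rw [pf_eq, pf_eq, array_eq, array_eq]
  exact Pool.Agent.TH421.OS.pf_identity n

end Pool.Agent.Results.MP_d12cfa_co.PfaffianIdentity
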